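import Pool.Agent.Helper88.BoggleEnc
import Pool.Agent.Helper88.BoggleDefinable

/-!
# BOGGLE-SOLVE is NP-complete

Strings over `{0, 1}` are lists of Booleans. NP and polynomial-time many-one reductions are those of
`Pool.Agent.Helper96.Complexity`: deterministic polynomial time is Mathlib's
`Turing.TM2ComputableInPolyTime` (with finite stack alphabets).
-/

set_option autoImplicit false

namespace Pool.Agent.Results.MP_406c0a_lc.BoggleNPComplete

open Pool.Agent.Helper88.Boggle Pool.Agent.Helper96

/-- The cells of the `n × n` board (with coordinates `0, ..., n - 1`). -/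
abbrev Cell (n : ℕ) : Type := Fin n × Fin n

/-- Two cells `(i, j)`, `(i', j')` are adjacent iff `max(|i - i'|, |j - j'|) = 1`. -/
def Adjacent {n : ℕ} (p q : Cell n) : Prop :=
  max |((p.1 : ℕ) : ℤ) - ((q.1 : ℕ) : ℤ)| |((p.2 : ℕ) : ℤ) - ((q.2 : ℕ) : ℤ)| = 1

/-- A board is a bijection from the cells to the letters `1, ..., n ^ 2`. -/
def IsBoard (n : ℕ) (B : Cell n → ℕ) : Prop := Set.BijOn B Set.univ (Set.Icc 1 (n ^ 2))

/-- A word is a finite sequence of pairwise distinct letters of length at least `2`. -/
def IsWord (n : ℕ) (w : List ℕ) : Prop :=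
  2 ≤ w.length ∧ w.Nodup ∧ ∀ a ∈ w, a ∈ Set.Icc 1 (n ^ 2)

/-- A word occurs in `B` if every two consecutive letters of it sit on adjacent cells. -/
def Occurs {n : ℕ} (B : Cell n → ℕ) (w : List ℕ) : Prop :=
  w.IsChain fun a b => ∃ p q : Cell n, B p = a ∧ B q = b ∧ Adjacent p q

/-- Some board contains all the words of `P`. -/
def Solvable (n : ℕ) (P : Finset (List ℕ)) : Prop :=
  ∃ B : Cell n → ℕ, IsBoard n B ∧ ∀ w ∈ P, Occurs B w

/-- Code of a letter `a ≤ n ^ 2`: `a` ones followed by `n ^ 2 - a` zeros. -/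
def encodeLetter (n a : ℕ) : List Bool := List.replicate a true ++ List.replicate (n ^ 2 - a) false

/-- Code of a word: the codes of its letters followed by `n ^ 2` zeros. -/
def encodeWord (n : ℕ) (w : List ℕ) : List Bool :=
  w.flatMap (encodeLetter n) ++ List.replicate (n ^ 2) false

/-- Code of `n` (in unary) and of a list of words. -/
def encode (n : ℕ) (l : List (List ℕ)) : List Bool :=
  List.replicate n true ++ [false] ++ l.flatMap (encodeWord n)

/-- The language BOGGLE-SOLVE: the strings that code some `n ≥ 1` in unary together with (a list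
of) the words of a finite set `P` of words over `{1, ..., n ^ 2}` such that some board contains all
the words of `P`. -/
def BoggleSolve (s : List Bool) : Prop :=
  ∃ (n : ℕ) (P : Finset (List ℕ)) (l : List (List ℕ)), 1 ≤ n ∧ (∀ w ∈ P, IsWord n w) ∧
    l.toFinset = P ∧ s = encode n l ∧ Solvable n P

/-! ### Cells and numbers -/

/-- number of a cell -/
def rank {n : ℕ} (p : Cell n) : ℕ := p.1 * n + p.2

theorem rank_div {n : ℕ} (p : Cell n) : rank p / n = p.1 := by
  have h := p.2.2
  have hn : 0 < n := by omega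
  unfold rank
  rw [mul_comm, Nat.mul_add_div hn, Nat.div_eq_of_lt h, add_zero]

theorem rank_mod {n : ℕ} (p : Cell n) : rank p % n = p.2 := by
  unfold rank
  rw [mul_comm, Nat.mul_add_mod, Nat.mod_eq_of_lt p.2.2]

theorem rank_lt {n : ℕ} (p : Cell n) : rank p < n * n := by
  unfold rank
  have h1 := p.1.2
  have h2 := p.2.2
  nlinarith

theorem rank_inj {n : ℕ} {p q : Cell n} (h : rank p = rank q) : p = q := by
  apply Prod.ext
  · apply Fin.ext
    rw [← rank_div p, ← rank_div q, h]
  · apply Fin.ext
    rw [← rank_mod p, ← rank_mod q, h]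

theorem exists_rank {n r : ℕ} (h : r < n * n) : ∃ p : Cell n, rank p = r := by
  have hn : 0 < n := by
    rcases Nat.eq_zero_or_pos n with h0 | h0
    · subst h0; omega
    · exact h0
  refine ⟨(⟨r / n, Nat.div_lt_of_lt_mul h⟩, ⟨r % n, Nat.mod_lt _ hn⟩), ?_⟩
  unfold rank
  simp only
  rw [mul_comm]
  exact Nat.div_add_mod r n

theorem adjacent_iff {n : ℕ} (p q : Cell n) : Adjacent p q ↔ NAdj n (rank p) (rank q) := by
  unfold Adjacent NAdj
  rw [rank_div, rank_div, rank_mod, rank_mod]
  have hne : rank p ≠ rank q ↔ ¬ ((p.1 : ℕ) = q.1 ∧ (p.2 : ℕ) = q.2) := by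
    rw [Ne, not_iff_not]
    constructor
    · intro h
      rw [rank_inj h]
      exact ⟨rfl, rfl⟩
    · rintro ⟨h1, h2⟩
      unfold rank
      rw [h1, h2]
  rw [hne]
  generalize (p.1 : ℕ) = a
  generalize (p.2 : ℕ) = b
  generalize (q.1 : ℕ) = c
  generalize (q.2 : ℕ) = d
  constructor
  · intro h
    have h1 : |(a : ℤ) - c| ≤ 1 := h ▸ le_max_left _ _
    have h2 : |(b : ℤ) - d| ≤ 1 := h ▸ le_max_right _ _
    rw [abs_le] at h1 h2
    refine ⟨?_, by omega, by omega, by omega, by omega⟩
    rintro ⟨rfl, rfl⟩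
    simp at h
  · rintro ⟨h0, h1, h2, h3, h4⟩
    apply le_antisymm
    · apply max_le <;> rw [abs_le] <;> constructor <;> omega
    · by_cases hac : a = c
      · have : b ≠ d := fun h => h0 ⟨hac, h⟩
        refine le_trans ?_ (le_max_right _ _)
        have h5 : (b : ℤ) - d ≠ 0 := by omega
        exact Int.one_le_abs h5
      · refine le_trans ?_ (le_max_left _ _)
        have h5 : (a : ℤ) - c ≠ 0 := by omega
        exact Int.one_le_abs h5

/-- `pos` permutes `0, ..., m - 1` -/
def IsPerm (m : ℕ) (pos : ℕ → ℕ) : Prop :=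
  (∀ x < m, pos x < m) ∧ ∀ x < m, ∀ y < m, pos x = pos y → x = y

theorem IsPerm.surj {m : ℕ} {pos : ℕ → ℕ} (h : IsPerm m pos) : ∀ r < m, ∃ x < m, pos x = r := by
  intro r hr
  let f : Fin m → Fin m := fun x => ⟨pos x, h.1 x x.2⟩
  have hf : Function.Injective f := fun x y hxy => Fin.ext (h.2 x x.2 y y.2 (Fin.mk.inj hxy))
  obtain ⟨x, hx⟩ := (Finite.injective_iff_surjective.1 hf) ⟨r, hr⟩
  exact ⟨x, x.2, Fin.mk.inj hx⟩

theorem solvable_iff {n : ℕ} {P : Finset (List ℕ)} (hP : ∀ w ∈ P, IsWord n w) :
    Solvable n P ↔ ∃ pos : ℕ → ℕ, IsPerm (n * n) pos ∧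
      ∀ w ∈ P, w.IsChain fun a b => NAdj n (pos (a - 1)) (pos (b - 1)) := by
  classical
  constructor
  · rintro ⟨B, hB, hw⟩
    have hex : ∀ x, x < n * n → ∃ p : Cell n, B p = x + 1 := by
      intro x hx
      obtain ⟨p, -, hp⟩ := hB.surjOn (show x + 1 ∈ Set.Icc 1 (n ^ 2) from
        ⟨by omega, by rw [sq]; omega⟩)
      exact ⟨p, hp⟩
    choose f hf using hex
    refine ⟨fun x => if h : x < n * n then rank (f x h) else 0, ⟨?_, ?_⟩, ?_⟩
    · intro x hx
      simp only [dif_pos hx]
      exact rank_lt _
    · intro x hx y hy hxy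
      simp only [dif_pos hx, dif_pos hy] at hxy
      have h1 := rank_inj hxy
      have h2 := hf x hx
      rw [h1, hf y hy] at h2
      omega
    · intro w hwP
      have h1 := hw w hwP
      unfold Occurs at h1
      rw [List.isChain_iff_getElem] at h1 ⊢
      intro i hi
      obtain ⟨p, q, hp, hq, hpq⟩ := h1 i hi
      have ha := (hP w hwP).2.2 _ (List.getElem_mem (show i < w.length by omega))
      have hb := (hP w hwP).2.2 _ (List.getElem_mem hi)
      rw [Set.mem_Icc, sq] at ha hb
      have ha' : w[i] - 1 < n * n := by omega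
      have hb' : w[i + 1] - 1 < n * n := by omega
      simp only [dif_pos ha', dif_pos hb']
      have ea : f (w[i] - 1) ha' = p := by
        apply hB.injOn (Set.mem_univ _) (Set.mem_univ _)
        rw [hf, hp]; omega
      have eb : f (w[i + 1] - 1) hb' = q := by
        apply hB.injOn (Set.mem_univ _) (Set.mem_univ _)
        rw [hf, hq]; omega
      rw [ea, eb]
      exact (adjacent_iff p q).1 hpq
  · rintro ⟨pos, hpos, hw⟩
    have hex : ∀ p : Cell n, ∃ x, x < n * n ∧ pos x = rank p := fun p => hpos.surj _ (rank_lt p)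
    choose g hg using hex
    have hBg : ∀ x, x < n * n → ∀ p : Cell n, rank p = pos x → g p = x := by
      intro x hx p hp
      exact hpos.2 _ (hg p).1 _ hx ((hg p).2.trans hp)
    refine ⟨fun p => g p + 1, ⟨?_, ?_, ?_⟩, ?_⟩
    · intro p _
      have := (hg p).1
      rw [Set.mem_Icc, sq]
      exact ⟨Nat.le_add_left _ _, this⟩
    · intro p _ q _ hpq
      simp only [Nat.add_right_cancel_iff] at hpq
      apply rank_inj
      rw [← (hg p).2, ← (hg q).2, hpq]
    · intro a ha
      rw [Set.mem_Icc, sq] at ha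
      have ha' : a - 1 < n * n := by omega
      obtain ⟨p, hp⟩ := exists_rank (hpos.1 _ ha')
      refine ⟨p, Set.mem_univ _, ?_⟩
      simp only
      rw [hBg _ ha' p hp]
      omega
    · intro w hwP
      have h1 := hw w hwP
      unfold Occurs
      rw [List.isChain_iff_getElem] at h1 ⊢
      intro i hi
      have ha := (hP w hwP).2.2 _ (List.getElem_mem (show i < w.length by omega))
      have hb := (hP w hwP).2.2 _ (List.getElem_mem hi)
      rw [Set.mem_Icc, sq] at ha hb
      have ha' : w[i] - 1 < n * n := by omega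
      have hb' : w[i + 1] - 1 < n * n := by omega
      obtain ⟨p, hp⟩ := exists_rank (hpos.1 _ ha')
      obtain ⟨q, hq⟩ := exists_rank (hpos.1 _ hb')
      refine ⟨p, q, ?_, ?_, ?_⟩
      · simp only
        rw [hBg _ ha' p hp]; omega
      · simp only
        rw [hBg _ hb' q hq]; omega
      · rw [adjacent_iff, hp, hq]
        exact h1 i hi

theorem placement_iff_perm {n : ℕ} {E : ℕ → ℕ → Prop} : (∃ pos, IsPlacement n E pos) ↔
    ∃ pos : ℕ → ℕ, IsPerm (n * n) pos ∧
      ∀ x < n * n, ∀ y < n * n, E x y → NAdj n (pos x) (pos y) := by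
  constructor
  · rintro ⟨pos, h1, h2, h3⟩
    have hbox : ∀ x < n * n, (pos x).1.toNat < n ∧ (pos x).2.toNat < n := by
      intro x hx
      have := h1 x hx
      omega
    have hdiv : ∀ x < n * n, ((pos x).1.toNat * n + (pos x).2.toNat) / n = (pos x).1.toNat := by
      intro x hx
      have h := (hbox x hx).2
      rw [mul_comm, Nat.mul_add_div (by omega), Nat.div_eq_of_lt h, add_zero]
    have hmod : ∀ x < n * n, ((pos x).1.toNat * n + (pos x).2.toNat) % n = (pos x).2.toNat := by
      intro x hx
      have h := (hbox x hx).2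
      rw [mul_comm, Nat.mul_add_mod, Nat.mod_eq_of_lt h]
    have hinj : ∀ x < n * n, ∀ y < n * n, (pos x).1.toNat * n + (pos x).2.toNat =
        (pos y).1.toNat * n + (pos y).2.toNat → pos x = pos y := by
      intro x hx y hy h
      have e1 := hdiv x hx
      have e2 := hmod x hx
      rw [h, hdiv y hy] at e1
      rw [h, hmod y hy] at e2
      have b1 := h1 x hx
      have b2 := h1 y hy
      apply Prod.ext
      · omega
      · omega
    refine ⟨fun x => (pos x).1.toNat * n + (pos x).2.toNat, ⟨?_, ?_⟩, ?_⟩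
    · intro x hx
      have := hbox x hx
      simp only
      nlinarith
    · intro x hx y hy h
      exact h2 x hx y hy (hinj x hx y hy h)
    · intro x hx y hy hE
      have h4 := h3 x hx y hy hE
      refine ⟨fun h => h4.1 (hinj x hx y hy h), ?_⟩
      rw [hdiv x hx, hdiv y hy, hmod x hx, hmod y hy]
      have h5 := h4.2.1
      have h6 := h4.2.2
      rw [abs_le] at h5 h6
      have b1 := h1 x hx
      have b2 := h1 y hy
      omega
  · rintro ⟨pos, hpos, h3⟩
    have hn : ∀ x < n * n, 0 < n := by
      intro x hx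
      rcases Nat.eq_zero_or_pos n with h0 | h0
      · subst h0; omega
      · exact h0
    have hinj : ∀ a b : ℕ, a / n = b / n → a % n = b % n → a = b := by
      intro a b h1 h2
      rw [← Nat.div_add_mod a n, ← Nat.div_add_mod b n, h1, h2]
    refine ⟨fun x => (((pos x / n : ℕ) : ℤ), ((pos x % n : ℕ) : ℤ)), ?_, ?_, ?_⟩
    · intro x hx
      have h1 := hpos.1 x hx
      have h2 : pos x / n < n := Nat.div_lt_of_lt_mul h1
      have h3 : pos x % n < n := Nat.mod_lt _ (hn x hx)
      exact ⟨Int.natCast_nonneg _, Int.ofNat_lt.2 h2, Int.natCast_nonneg _, Int.ofNat_lt.2 h3⟩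
    · intro x hx y hy h
      rw [Prod.mk.injEq] at h
      exact hpos.2 x hx y hy (hinj _ _ (by exact_mod_cast h.1) (by exact_mod_cast h.2))
    · intro x hx y hy hE
      obtain ⟨h4, h5, h6, h7, h8⟩ := h3 x hx y hy hE
      refine ⟨?_, ?_, ?_⟩
      · intro h
        rw [Prod.mk.injEq] at h
        exact h4 (hinj _ _ (by exact_mod_cast h.1) (by exact_mod_cast h.2))
      · simp only
        rw [abs_le]
        omega
      · simp only
        rw [abs_le]
        omega

/-! ### Codes -/

theorem encode_eq (n : ℕ) (l : List (List ℕ)) : encode n l = encCs n (n * n) (toCs l) := by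
  unfold encode encCs toCs
  congr 1
  rw [List.flatMap_assoc]
  congr 1
  funext w
  unfold encodeWord
  rw [List.flatMap_append]
  congr 1
  · congr 1
    funext a
    unfold encodeLetter blk
    rw [sq]
  · simp [blk, sq]

theorem isWord_iff (n : ℕ) (w : List ℕ) : IsWord n w ↔ IsWordL (n * n) w := by
  unfold IsWord IsWordL
  simp only [Set.mem_Icc, sq]

theorem le_of_mem_toCs {L : ℕ} {l : List (List ℕ)} (hl : ∀ w ∈ l, IsWordL L w) :
    ∀ a ∈ toCs l, a ≤ L := by
  intro a ha
  unfold toCs at ha
  rw [List.mem_flatMap] at ha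
  obtain ⟨w, hw, ha⟩ := ha
  rw [List.mem_append] at ha
  rcases ha with ha | ha
  · exact ((hl w hw).2.2 a ha).2
  · rw [List.mem_singleton] at ha
    omega

/-- the number of ones in block `k` -/
def cnt (s : List Bool) (n k : ℕ) : ℕ :=
  ∑ t ∈ Finset.range (n * n), if s[n + 1 + (k * (n * n) + t)]? = some true then 1 else 0

theorem cnt_eq {s : List Bool} {n k c : ℕ} (hc : c ≤ n * n)
    (h : ∀ t < n * n, (s[n + 1 + (k * (n * n) + t)]? = some true ↔ t < c)) : cnt s n k = c := by
  unfold cnt
  rw [Finset.sum_congr rfl (g := fun t => if t < c then 1 else 0) (fun t ht => by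
    rw [Finset.mem_range] at ht
    simp only [h t ht])]
  rw [Finset.sum_boole]
  have : (Finset.range (n * n)).filter (fun t => t < c) = Finset.range c := by
    ext t
    rw [Finset.mem_filter, Finset.mem_range, Finset.mem_range]
    omega
  rw [this]
  simp

theorem csOK_congr {L K : ℕ} {c c' : ℕ → ℕ} (h : ∀ k < K, c k = c' k) (hc : CsOK L c K) :
    CsOK L c' K := by
  obtain ⟨c1, c2, c3, c4⟩ := hc
  refine ⟨fun k hk => (h k hk) ▸ c1 k hk, fun k hk h0 => ?_, fun hK => ?_, fun k hk j hj hall => ?_⟩
  · rw [← h k hk] at h0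
    rw [← h (k - 1) (by omega), ← h (k - 2) (by omega)]
    exact c2 k hk h0
  · rw [← h _ (by omega)]
    exact c3 hK
  · rw [← h k hk, ← h j (by omega)]
    exact c4 k hk j hj fun i hi h1 h2 => (h i hi) ▸ hall i hi h1 h2

/-- a syntactic description of the language -/
theorem boggleSolve_iff (s : List Bool) : BoggleSolve s ↔ ∃ n K, 0 < n ∧
    s.length = n + 1 + K * (n * n) ∧ (∀ i < n, s[i]? = some true) ∧ ¬ s[n]? = some true ∧
    (∀ k < K, ∀ t < n * n, (s[n + 1 + (k * (n * n) + t)]? = some true ↔ t < cnt s n k)) ∧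
    CsOK (n * n) (cnt s n) K ∧ ∃ pos : ℕ → ℕ, IsPerm (n * n) pos ∧
      ∀ k, k + 1 < K → cnt s n k ≠ 0 → cnt s n (k + 1) ≠ 0 →
        NAdj n (pos (cnt s n k - 1)) (pos (cnt s n (k + 1) - 1)) := by
  classical
  constructor
  · rintro ⟨n, P, l, hn, hP, rfl, hs, hsol⟩
    have hl : ∀ w ∈ l, IsWordL (n * n) w := fun w hw =>
      (isWord_iff n w).1 (hP w (List.mem_toFinset.2 hw))
    have hL : 0 < n * n := Nat.mul_pos hn hn
    have hle := le_of_mem_toCs hl
    rw [encode_eq, eq_encCs_iff hL hle] at hs
    obtain ⟨s1, s2, s3, s4⟩ := hs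
    have hcnt : ∀ k < (toCs l).length, cnt s n k = (toCs l).getD k 0 := by
      intro k hk
      apply cnt_eq
      · rw [List.getD_eq_getElem _ _ hk]
        exact hle _ (List.getElem_mem _)
      · exact s4 k hk
    refine ⟨n, (toCs l).length, hn, s1, s2, s3, ?_, ?_, ?_⟩
    · intro k hk
      rw [hcnt k hk]
      exact s4 k hk
    · exact csOK_congr (fun k hk => (hcnt k hk).symm) (csOK_of_words hl)
    · obtain ⟨pos, hpos, hch⟩ := (solvable_iff hP).1 hsol
      refine ⟨pos, hpos, ?_⟩
      have h1 : ∀ w ∈ l, w.IsChain fun a b => NAdj n (pos (a - 1)) (pos (b - 1)) :=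
        fun w hw => hch w (List.mem_toFinset.2 hw)
      rw [chain_iff hl] at h1
      intro k hk
      rw [hcnt k (by omega), hcnt (k + 1) hk]
      exact h1 k hk
  · rintro ⟨n, K, hn, s1, s2, s3, s4, hok, pos, hpos, hch⟩
    obtain ⟨l, hl, hcs⟩ := words_of_csOK K _ hok
    have hL : 0 < n * n := Nat.mul_pos hn hn
    have hlen : (toCs l).length = K := by rw [← hcs]; simp
    have hget : ∀ k < K, (toCs l).getD k 0 = cnt s n k := by
      intro k hk
      rw [← hcs, List.getD_eq_getElem _ _ (by simpa using hk)]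
      simp
    have hP : ∀ w ∈ l.toFinset, IsWord n w := fun w hw =>
      (isWord_iff n w).2 (hl w (List.mem_toFinset.1 hw))
    refine ⟨n, l.toFinset, l, hn, hP, rfl, ?_, ?_⟩
    · rw [encode_eq, eq_encCs_iff hL (le_of_mem_toCs hl), hlen]
      refine ⟨s1, s2, s3, fun k hk => ?_⟩
      rw [hget k hk]
      exact s4 k hk
    · rw [solvable_iff hP]
      refine ⟨pos, hpos, ?_⟩
      have h1 : ∀ w ∈ l, w.IsChain fun a b => NAdj n (pos (a - 1)) (pos (b - 1)) := by
        rw [chain_iff hl]
        intro k hk
        rw [hlen] at hk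
        rw [hget k (by omega), hget (k + 1) hk]
        exact hch k hk
      exact fun w hw => h1 w (List.mem_toFinset.1 hw)

/-! ### Membership in NP -/

/-- the checks on the input string -/
def InputOK (s : List Bool) (n K : ℕ) : Prop := 0 < n ∧
    s.length = n + 1 + K * (n * n) ∧ (∀ i < n, s[i]? = some true) ∧ ¬ s[n]? = some true ∧
    (∀ k < K, ∀ t < n * n, (s[n + 1 + (k * (n * n) + t)]? = some true ↔ t < cnt s n k)) ∧
    CsOK (n * n) (cnt s n) K

/-- the checks on the certificate -/
def CertOK (s y : List Bool) (n K : ℕ) : Prop :=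
  (∀ x < n * n, ∃ r < n * n, y[x * (n * n) + r]? = some true) ∧
  (∀ x < n * n, ∀ x' < n * n, ∀ r < n * n, y[x * (n * n) + r]? = some true →
    y[x' * (n * n) + r]? = some true → x = x') ∧
  ∀ k < K, k + 1 < K → cnt s n k ≠ 0 → cnt s n (k + 1) ≠ 0 → ∀ r < n * n, ∀ r' < n * n,
    y[(cnt s n k - 1) * (n * n) + r]? = some true →
    y[(cnt s n (k + 1) - 1) * (n * n) + r']? = some true → NAdj n r r'

theorem boggleSolve_iff_cert (s : List Bool) : BoggleSolve s ↔
    ∃ y : List Bool, y.length = (Polynomial.X ^ 4 : Polynomial ℕ).eval s.length ∧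
      ∃ n < s.length, ∃ K < s.length, InputOK s n K ∧ CertOK s y n K := by
  classical
  rw [boggleSolve_iff]
  simp only [Polynomial.eval_pow, Polynomial.eval_X]
  constructor
  · rintro ⟨n, K, hn, s1, s2, s3, s4, hok, pos, hpos, hch⟩
    have hL : 0 < n * n := Nat.mul_pos hn hn
    have hKle : K ≤ K * (n * n) := Nat.le_mul_of_pos_right K hL
    have hlen : (n * n) * (n * n) ≤ s.length ^ 4 := by
      have : (n * n) * (n * n) = n ^ 4 := by ring
      rw [this]
      exact Nat.pow_le_pow_left (by omega) 4
    have hget : ∀ x < n * n, ∀ r < n * n,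
        ((bits (s.length ^ 4) (fun j => j % (n * n) = pos (j / (n * n))))[x * (n * n) + r]? =
          some true ↔ r = pos x) := by
      intro x hx r hr
      rw [getElem?_bits]
      have e1 : (x * (n * n) + r) / (n * n) = x := by
        rw [mul_comm, Nat.mul_add_div hL, Nat.div_eq_of_lt hr, add_zero]
      have e2 : (x * (n * n) + r) % (n * n) = r := by
        rw [mul_comm, Nat.mul_add_mod, Nat.mod_eq_of_lt hr]
      rw [e1, e2]
      refine ⟨fun h => h.2, fun h => ⟨?_, h⟩⟩
      refine lt_of_lt_of_le ?_ hlen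
      nlinarith
    refine ⟨bits (s.length ^ 4) (fun j => j % (n * n) = pos (j / (n * n))), length_bits _ _,
      n, by omega, K, by omega, ⟨hn, s1, s2, s3, s4, hok⟩, ?_, ?_, ?_⟩
    · intro x hx
      exact ⟨pos x, hpos.1 x hx, (hget x hx _ (hpos.1 x hx)).2 rfl⟩
    · intro x hx x' hx' r hr h1 h2
      rw [hget x hx r hr] at h1
      rw [hget x' hx' r hr] at h2
      exact hpos.2 x hx x' hx' (h1.symm.trans h2)
    · intro k hk0 hk hne hne' r hr r' hr' h1 h2
      have b1 := hok.1 k (by omega)
      have b2 := hok.1 (k + 1) hk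
      rw [hget _ (by omega) r hr] at h1
      rw [hget _ (by omega) r' hr'] at h2
      rw [h1, h2]
      exact hch k hk hne hne'
  · rintro ⟨y, -, n, -, K, -, ⟨hn, s1, s2, s3, s4, hok⟩, y1, y2, y3⟩
    choose f hf using y1
    refine ⟨n, K, hn, s1, s2, s3, s4, hok, fun x => if h : x < n * n then f x h else 0,
      ⟨?_, ?_⟩, ?_⟩
    · intro x hx
      simp only [dif_pos hx]
      exact (hf x hx).1
    · intro x hx x' hx' h
      simp only [dif_pos hx, dif_pos hx'] at h
      refine y2 x hx x' hx' (f x hx) (hf x hx).1 (hf x hx).2 ?_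
      rw [h]
      exact (hf x' hx').2
    · intro k hk hne hne'
      have b1 := hok.1 k (by omega)
      have b2 := hok.1 (k + 1) hk
      have c1 : cnt s n k - 1 < n * n := by omega
      have c2 : cnt s n (k + 1) - 1 < n * n := by omega
      simp only [dif_pos c1, dif_pos c2]
      exact y3 k (by omega) hk hne hne' _ (hf _ c1).1 _ (hf _ c2).1 (hf _ c1).2 (hf _ c2).2

theorem def_cnt : Def fun X v => cnt (X false) (v 0) (v 1) := by
  classical
  have h : DefP fun X v => (X false)[v 1 + 1 + (v 2 * (v 1 * v 1) + v 0)]? = some true :=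
    DefP.bit false (((Def.var 1).add (Def.const 1)).add (((Def.var 2).mul
      ((Def.var 1).mul (Def.var 1))).add (Def.var 0)))
  refine (Def.sum ((Def.var 0).mul (Def.var 0)) h).congr fun X v => ?_
  unfold cnt
  apply Finset.sum_congr rfl
  intro t _
  by_cases hb : (X false)[v 0 + 1 + (v 1 * (v 0 * v 0) + t)]? = some true
  · exact (if_pos hb).trans (if_pos hb).symm
  · exact (if_neg hb).trans (if_neg hb).symm

theorem def_inputOK : DefP fun X v => InputOK (X false) (v 1) (v 0) := by
  have L : ∀ i, Def fun _ v => v i * v i := fun i => (Def.var i).mul (Def.var i)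
  have C : ∀ (i : ℕ) {f : Inp → (ℕ → ℕ) → ℕ}, Def f → Def fun X v => cnt (X false) (v i) (f X v) :=
    fun i f hf => Def.comp2 (F := fun X n k => cnt (X false) n k) def_cnt (Def.var i) hf
  refine (DefP.lt (Def.const 0) (Def.var 1)).and ((DefP.eq (Def.len false)
    (((Def.var 1).add (Def.const 1)).add ((Def.var 0).mul (L 1)))).and
    ((DefP.all (Def.var 1) (DefP.bit false (Def.var 0))).and
    ((DefP.bit false (Def.var 1)).not.and (DefP.and ?_ ?_))))
  · -- blocks
    exact DefP.all (Def.var 0) (DefP.all (L 2) (DefP.iff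
      (DefP.bit false (((Def.var 3).add (Def.const 1)).add (((Def.var 1).mul (L 3)).add
        (Def.var 0)))) (DefP.lt (Def.var 0) (C 3 (Def.var 1)))))
  · refine DefP.and ?_ (DefP.and ?_ (DefP.and ?_ ?_))
    · exact DefP.all (Def.var 0) (DefP.le (C 2 (Def.var 0)) (L 2))
    · exact DefP.all (Def.var 0) ((DefP.eq (C 2 (Def.var 0)) (Def.const 0)).imp
        ((DefP.le (Def.const 2) (Def.var 0)).and
          ((DefP.eq (C 2 ((Def.var 0).sub (Def.const 1))) (Def.const 0)).not.and
            (DefP.eq (C 2 ((Def.var 0).sub (Def.const 2))) (Def.const 0)).not)))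
    · exact (DefP.lt (Def.const 0) (Def.var 0)).imp
        (DefP.eq (C 1 ((Def.var 0).sub (Def.const 1))) (Def.const 0))
    · exact DefP.all (Def.var 0) (DefP.all (Def.var 0) ((DefP.all (Def.var 2)
        ((DefP.le (Def.var 1) (Def.var 0)).imp ((DefP.le (Def.var 0) (Def.var 2)).imp
          (DefP.eq (C 4 (Def.var 0)) (Def.const 0)).not))).imp
        (DefP.eq (C 3 (Def.var 0)) (C 3 (Def.var 1))).not))

theorem def_certOK : DefP fun X v => CertOK (X false) (X true) (v 1) (v 0) := by
  have L : ∀ i, Def fun _ v => v i * v i := fun i => (Def.var i).mul (Def.var i)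
  have C : ∀ (i : ℕ) {f : Inp → (ℕ → ℕ) → ℕ}, Def f → Def fun X v => cnt (X false) (v i) (f X v) :=
    fun i f hf => Def.comp2 (F := fun X n k => cnt (X false) n k) def_cnt (Def.var i) hf
  have N : ∀ i j k : ℕ, DefP fun _ v => NAdj (v i) (v j) (v k) := by
    intro i j k
    have hd : ∀ j, Def fun _ v => v j / v i := fun j => (Def.var j).div (Def.var i)
    have hm : ∀ j, Def fun _ v => v j % v i := fun j => (Def.var j).mod (Def.var i)
    exact (DefP.eq (Def.var j) (Def.var k)).not.and ((DefP.le (hd j) ((hd k).add (Def.const 1))).and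
      ((DefP.le (hd k) ((hd j).add (Def.const 1))).and
      ((DefP.le (hm j) ((hm k).add (Def.const 1))).and
      (DefP.le (hm k) ((hm j).add (Def.const 1))))))
  refine DefP.and ?_ (DefP.and ?_ ?_)
  · exact DefP.all (L 1) (DefP.ex (L 2) (DefP.bit true (((Def.var 1).mul (L 3)).add (Def.var 0))))
  · exact DefP.all (L 1) (DefP.all (L 2) (DefP.all (L 3)
      ((DefP.bit true (((Def.var 2).mul (L 4)).add (Def.var 0))).imp
      ((DefP.bit true (((Def.var 1).mul (L 4)).add (Def.var 0))).imp
        (DefP.eq (Def.var 2) (Def.var 1))))))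
  · have h := (DefP.bit true ((((C 4 (Def.var 2)).sub (Def.const 1)).mul (L 4)).add
      (Def.var 1))).imp
      ((DefP.bit true ((((C 4 ((Def.var 2).add (Def.const 1))).sub (Def.const 1)).mul (L 4)).add
        (Def.var 0))).imp (N 4 1 0))
    exact DefP.all (Def.var 0) ((DefP.lt ((Def.var 0).add (Def.const 1)) (Def.var 1)).imp
      ((DefP.eq (C 2 (Def.var 0)) (Def.const 0)).not.imp
      ((DefP.eq (C 2 ((Def.var 0).add (Def.const 1))) (Def.const 0)).not.imp
      (DefP.all (L 2) (DefP.all (L 3) h)))))

theorem inNP_boggleSolve : InNP BoggleSolve :=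
  inNP_of_defP (Polynomial.X ^ 4)
    (P := fun X => ∃ n < (X false).length, ∃ K < (X false).length, InputOK (X false) n K ∧
      CertOK (X false) (X true) n K)
    (DefP.ex (Def.len false) (DefP.ex (Def.len false) (def_inputOK.and def_certOK)))
    boggleSolve_iff_cert

/-! ### NP-hardness -/

theorem encCs_inj {n n' L L' : ℕ} (hL : L = n * n) (hL' : L' = n' * n') (hn : 0 < n)
    {cs cs' : List ℕ} (h : ∀ a ∈ cs, a ≤ L) (h' : ∀ a ∈ cs', a ≤ L')
    (e : encCs n L cs = encCs n' L' cs') : n = n' ∧ cs = cs' := by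
  have hnn : n = n' := by
    rcases lt_trichotomy n n' with h1 | h1 | h1
    · have h2 := getElem?_encCs_left (L := L') (cs := cs') h1
      rw [← e, getElem?_encCs_mid] at h2
      simp at h2
    · exact h1
    · have h2 := getElem?_encCs_left (L := L) (cs := cs) h1
      rw [e, getElem?_encCs_mid] at h2
      simp at h2
  subst hnn
  have hLL : L = L' := hL.trans hL'.symm
  subst hLL
  have hpos : 0 < L := hL ▸ Nat.mul_pos hn hn
  refine ⟨rfl, ?_⟩
  have hlen := length_encCs (n := n) h
  rw [e, length_encCs h'] at hlen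
  have hlen' : cs.length = cs'.length := by
    have : cs'.length * L = cs.length * L := by omega
    exact (Nat.eq_of_mul_eq_mul_right hpos this).symm
  apply List.ext_getElem hlen'
  intro k hk hk'
  have key : ∀ t < L, (t < cs.getD k 0 ↔ t < cs'.getD k 0) := by
    intro t ht
    rw [← getElem?_encCs_right (n := n) h hk ht, e, getElem?_encCs_right h' hk' ht]
  rw [List.getD_eq_getElem _ _ hk, List.getD_eq_getElem _ _ hk'] at key
  have b1 := h _ (List.getElem_mem hk)
  have b2 := h' _ (List.getElem_mem hk')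
  rcases lt_trichotomy cs[k] cs'[k] with h1 | h1 | h1
  · have := (key cs[k] (by omega)).2 h1
    omega
  · exact h1
  · have := (key cs'[k] (by omega)).1 h1
    omega

theorem boggleSolve_encode {n : ℕ} (hn : 0 < n) {l : List (List ℕ)} (hl : ∀ w ∈ l, IsWord n w) :
    BoggleSolve (encode n l) ↔ ∃ pos : ℕ → ℕ, IsPerm (n * n) pos ∧
      ∀ w ∈ l, w.IsChain fun a b => NAdj n (pos (a - 1)) (pos (b - 1)) := by
  have hl' : ∀ w ∈ l, IsWordL (n * n) w := fun w hw => (isWord_iff n w).1 (hl w hw)
  constructor
  · rintro ⟨n', P, l', hn', hP, rfl, e, hsol⟩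
    have hw' : ∀ w ∈ l', IsWordL (n' * n') w := fun w hw =>
      (isWord_iff n' w).1 (hP w (List.mem_toFinset.2 hw))
    rw [encode_eq, encode_eq] at e
    obtain ⟨h1, h2⟩ := encCs_inj rfl rfl hn (le_of_mem_toCs hl') (le_of_mem_toCs hw') e
    subst h1
    obtain ⟨pos, hpos, hch⟩ := (solvable_iff hP).1 hsol
    refine ⟨pos, hpos, ?_⟩
    have h3 : ∀ w ∈ l', w.IsChain fun a b => NAdj n (pos (a - 1)) (pos (b - 1)) :=
      fun w hw => hch w (List.mem_toFinset.2 hw)
    rw [chain_iff hw', ← h2] at h3
    exact (chain_iff hl').2 h3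
  · rintro ⟨pos, hpos, hch⟩
    have hP : ∀ w ∈ l.toFinset, IsWord n w := fun w hw => hl w (List.mem_toFinset.1 hw)
    exact ⟨n, l.toFinset, l, hn, hP, rfl, rfl, (solvable_iff hP).2
      ⟨pos, hpos, fun w hw => hch w (List.mem_toFinset.1 hw)⟩⟩

/-- blocks of equal length, some of them suppressed -/
theorem filter_blocks {α : Type} (M B : ℕ) (E : ℕ → Bool) (f : ℕ → α) (E' : ℕ → Bool)
    (hE : ∀ s r, r < B → E (s * B + r) = E' s) :
    ((List.range (M * B)).filter E).map f =
      ((List.range M).filter E').flatMap fun s => (List.range B).map fun r => f (s * B + r) := by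
  induction M with
  | zero => simp
  | succ M ih =>
    rw [Nat.succ_mul, List.range_add, List.filter_append, List.map_append, ih, List.range_succ,
      List.filter_append, List.flatMap_append]
    congr 1
    by_cases h : E' M = true
    · have h1 : (List.range B).filter (E ∘ (M * B + ·)) = List.range B := by
        rw [List.filter_eq_self]
        intro r hr
        rw [List.mem_range] at hr
        simp only [Function.comp]
        rw [hE M r hr, h]
      rw [List.filter_map, h1, List.map_map]
      simp [h]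
    · have h1 : (List.range B).filter (E ∘ (M * B + ·)) = [] := by
        rw [List.filter_eq_nil_iff]
        intro r hr
        rw [List.mem_range] at hr
        simp only [Function.comp]
        rw [hE M r hr]
        exact h
      rw [List.filter_map, h1]
      simp [h]

theorem map_range_lt {L a : ℕ} (h : a ≤ L) :
    (List.range L).map (fun r => decide (r < a)) = blk L a := by
  apply bool_ext
  · rw [length_blk h]; simp
  · intro i hi
    have hi' : i < L := by simpa using hi
    rw [getElem?_blk hi', List.getElem?_map, List.getElem?_range hi']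
    simp

/-- the pair of letters coded by a number below `(n * n) * (n * n)` is used -/
def SlotOK (n : ℕ) (E : ℕ → ℕ → Prop) (i : ℕ) : Prop :=
  E (i / (n * n)) (i % (n * n)) ∧ i / (n * n) ≠ i % (n * n)

open Classical in
/-- the words of the puzzle: one word of length two for each edge -/
noncomputable def puzzle (n : ℕ) (E : ℕ → ℕ → Prop) : List (List ℕ) :=
  ((List.range ((n * n) * (n * n))).filter fun i => decide (SlotOK n E i)).map
    fun i => [i / (n * n) + 1, i % (n * n) + 1]

/-- index sets of the bits written -/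
def KeepBit (n : ℕ) (E : ℕ → ℕ → Prop) (i : ℕ) : Prop :=
  i < n + 1 ∨ SlotOK n E ((i - (n + 1)) / (3 * (n * n)))

/-- the bits written -/
def OutBit (n : ℕ) (i : ℕ) : Prop :=
  i < n ∨ (n + 1 ≤ i ∧
    (((i - (n + 1)) % (3 * (n * n)) < n * n ∧ (i - (n + 1)) % (3 * (n * n)) <
      (i - (n + 1)) / (3 * (n * n)) / (n * n) + 1) ∨
    (n * n ≤ (i - (n + 1)) % (3 * (n * n)) ∧ (i - (n + 1)) % (3 * (n * n)) < 2 * (n * n) ∧
      (i - (n + 1)) % (3 * (n * n)) - n * n < (i - (n + 1)) / (3 * (n * n)) % (n * n) + 1)))

open Classical in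
theorem encode_puzzle {n : ℕ} (hn : 0 < n) (E : ℕ → ℕ → Prop) :
    ((List.range (n + 1 + (n * n) * (n * n) * (3 * (n * n)))).filter
      fun i => decide (KeepBit n E i)).map (fun i => decide (OutBit n i)) =
      encode n (puzzle n E) := by
  have hL : 0 < n * n := Nat.mul_pos hn hn
  have h3L : 0 < 3 * (n * n) := by omega
  rw [List.range_add, List.filter_append, List.map_append]
  unfold encode
  congr 1
  · have h1 : (List.range (n + 1)).filter (fun i => decide (KeepBit n E i)) =
        List.range (n + 1) := by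
      rw [List.filter_eq_self]
      intro i hi
      rw [List.mem_range] at hi
      exact decide_eq_true (Or.inl hi)
    rw [h1, List.range_succ, List.map_append]
    congr 1
    · apply List.ext_getElem
      · simp
      · intro i hi _
        have hi' : i < n := by simpa using hi
        simp [OutBit, hi']
    · simp [OutBit]
  · rw [List.filter_map, List.map_map]
    rw [filter_blocks _ _ _ _ (fun i => decide (SlotOK n E i))]
    · unfold puzzle
      rw [List.flatMap_map]
      apply List.flatMap_congr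
      intro s hs
      rw [List.mem_filter, List.mem_range] at hs
      have hs1 : s / (n * n) < n * n := Nat.div_lt_of_lt_mul hs.1
      have hs2 : s % (n * n) < n * n := Nat.mod_lt _ hL
      have e : (List.range (3 * (n * n))).map (fun r => ((fun i => decide (OutBit n i)) ∘
          (n + 1 + ·)) (s * (3 * (n * n)) + r)) = (List.range (3 * (n * n))).map (fun r =>
            decide ((r < n * n ∧ r < s / (n * n) + 1) ∨ (n * n ≤ r ∧ r < 2 * (n * n) ∧
              r - n * n < s % (n * n) + 1))) := by
        apply List.map_congr_left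
        intro r hr
        rw [List.mem_range] at hr
        simp only [Function.comp]
        unfold OutBit
        have e1 : n + 1 + (s * (3 * (n * n)) + r) - (n + 1) = s * (3 * (n * n)) + r := by omega
        have e2 : (s * (3 * (n * n)) + r) / (3 * (n * n)) = s := by
          rw [mul_comm, Nat.mul_add_div h3L, Nat.div_eq_of_lt hr, add_zero]
        have e3 : (s * (3 * (n * n)) + r) % (3 * (n * n)) = r := by
          rw [mul_comm, Nat.mul_add_mod, Nat.mod_eq_of_lt hr]
        rw [e1, e2, e3]
        apply decide_eq_decide.2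
        constructor
        · rintro (h | h)
          · omega
          · exact h.2
        · intro h
          exact Or.inr ⟨by omega, h⟩
      rw [e]
      have e4 : 3 * (n * n) = n * n + (n * n + n * n) := by ring
      rw [e4, List.range_add, List.range_add, List.map_append, List.map_append, List.map_append,
        List.map_map, List.map_map, List.map_map]
      unfold encodeWord
      rw [List.flatMap_cons, List.flatMap_cons, List.flatMap_nil, List.append_nil,
        List.append_assoc]
      have b1 := map_range_lt (L := n * n) (a := s / (n * n) + 1) hs1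
      have b2 := map_range_lt (L := n * n) (a := s % (n * n) + 1) hs2
      have b3 := map_range_lt (L := n * n) (a := 0) (Nat.zero_le _)
      have c1 : encodeLetter n (s / (n * n) + 1) = blk (n * n) (s / (n * n) + 1) := by
        unfold encodeLetter blk; rw [sq]
      have c2 : encodeLetter n (s % (n * n) + 1) = blk (n * n) (s % (n * n) + 1) := by
        unfold encodeLetter blk; rw [sq]
      have c3 : List.replicate (n ^ 2) false = blk (n * n) 0 := by
        simp [blk, sq]
      rw [c1, c2, c3, ← b1, ← b2, ← b3]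
      congr 1
      · apply List.map_congr_left
        intro r hr
        rw [List.mem_range] at hr
        apply decide_eq_decide.2
        omega
      · congr 1
        · apply List.map_congr_left
          intro r hr
          rw [List.mem_range] at hr
          simp only [Function.comp]
          apply decide_eq_decide.2
          omega
        · apply List.map_congr_left
          intro r hr
          rw [List.mem_range] at hr
          simp only [Function.comp]
          apply decide_eq_decide.2
          omega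
    · intro s r hr
      simp only [Function.comp]
      apply decide_eq_decide.2
      unfold KeepBit
      have e1 : n + 1 + (s * (3 * (n * n)) + r) - (n + 1) = s * (3 * (n * n)) + r := by omega
      have e2 : (s * (3 * (n * n)) + r) / (3 * (n * n)) = s := by
        rw [mul_comm, Nat.mul_add_div h3L, Nat.div_eq_of_lt hr, add_zero]
      rw [e1, e2]
      constructor
      · rintro (h | h)
        · omega
        · exact h
      · exact Or.inr

theorem puzzle_valid {n : ℕ} (E : ℕ → ℕ → Prop) : ∀ w ∈ puzzle n E, IsWord n w := by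
  classical
  intro w hw
  unfold puzzle at hw
  rw [List.mem_map] at hw
  obtain ⟨i, hi, rfl⟩ := hw
  rw [List.mem_filter, List.mem_range] at hi
  have h0 : 0 < n * n := by
    rcases Nat.eq_zero_or_pos (n * n) with h0 | h0
    · rw [h0] at hi; omega
    · exact h0
  have hs1 : i / (n * n) < n * n := Nat.div_lt_of_lt_mul hi.1
  have hs2 : i % (n * n) < n * n := Nat.mod_lt _ h0
  have hne := (of_decide_eq_true hi.2).2
  refine ⟨by simp, ?_, ?_⟩
  · simp only [List.nodup_cons, List.mem_singleton, List.not_mem_nil, not_false_eq_true,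
      List.nodup_nil, and_true]
    exact fun h => hne (Nat.succ_injective h)
  · intro a ha
    rw [Set.mem_Icc, sq]
    simp only [List.mem_cons, List.not_mem_nil, or_false] at ha
    rcases ha with rfl | rfl
    · exact ⟨Nat.le_add_left _ _, hs1⟩
    · exact ⟨Nat.le_add_left _ _, hs2⟩

theorem boggleSolve_puzzle {n : ℕ} (hn : 0 < n) {E : ℕ → ℕ → Prop} (hE : ∀ x, ¬ E x x) :
    BoggleSolve (encode n (puzzle n E)) ↔ ∃ pos, IsPlacement n E pos := by
  classical
  have hL : 0 < n * n := Nat.mul_pos hn hn
  rw [boggleSolve_encode hn (puzzle_valid E), placement_iff_perm]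
  constructor
  · rintro ⟨pos, hpos, h⟩
    refine ⟨pos, hpos, fun x hx y hy hxy => ?_⟩
    have e1 : (x * (n * n) + y) / (n * n) = x := by
      rw [mul_comm, Nat.mul_add_div hL, Nat.div_eq_of_lt hy, add_zero]
    have e2 : (x * (n * n) + y) % (n * n) = y := by
      rw [mul_comm, Nat.mul_add_mod, Nat.mod_eq_of_lt hy]
    have hmem : [x + 1, y + 1] ∈ puzzle n E := by
      unfold puzzle
      rw [List.mem_map]
      refine ⟨x * (n * n) + y, ?_, by rw [e1, e2]⟩
      rw [List.mem_filter, List.mem_range]
      refine ⟨by nlinarith, decide_eq_true ?_⟩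
      unfold SlotOK
      rw [e1, e2]
      refine ⟨hxy, ?_⟩
      rintro rfl
      exact hE _ hxy
    have h1 := h _ hmem
    rw [List.isChain_cons] at h1
    exact h1.1 (y + 1) (by simp)
  · rintro ⟨pos, hpos, h⟩
    refine ⟨pos, hpos, fun w hw => ?_⟩
    unfold puzzle at hw
    rw [List.mem_map] at hw
    obtain ⟨i, hi, rfl⟩ := hw
    rw [List.mem_filter, List.mem_range] at hi
    have hs1 : i / (n * n) < n * n := Nat.div_lt_of_lt_mul hi.1
    have hs2 : i % (n * n) < n * n := Nat.mod_lt _ hL
    have h1 := h _ hs1 _ hs2 (of_decide_eq_true hi.2).1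
    simpa using h1

theorem not_edgeN_self (Φ : CNFData) (X : Inp) (x : ℕ) : ¬ edgeN Φ X x x := by
  unfold edgeN Edge NAdj
  rintro (⟨-, -, h, -⟩ | ⟨-, -, h, -⟩)
  · exact h rfl
  · omega

theorem sideX_pos (Φ : CNFData) (X : Inp) : 0 < sideX Φ X := by
  unfold sideX sideN
  omega

theorem def_slotOK (Φ : CNFData) : DefP fun X v => SlotOK (sideX Φ X) (edgeN Φ X) (v 0) := by
  have hL : Def fun X _ => sideX Φ X * sideX Φ X := (def_sideX Φ).mul (def_sideX Φ)
  have h1 : Def fun X v => v 0 / (sideX Φ X * sideX Φ X) := (Def.var 0).div hL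
  have h2 : Def fun X v => v 0 % (sideX Φ X * sideX Φ X) := (Def.var 0).mod hL
  exact (DefP.comp2 (F := fun X x y => edgeN Φ X x y) (def_edgeN Φ) h1 h2).and (DefP.eq h1 h2).not

theorem npHard_boggleSolve : NPHard BoggleSolve := by
  classical
  rintro L' ⟨p, R, hR, hL'⟩
  obtain ⟨Φ, hΦ⟩ := cook_levin_sat p R hR
  have hN : Def fun X _ => sideX Φ X := def_sideX Φ
  have hL : Def fun X _ => sideX Φ X * sideX Φ X := hN.mul hN
  have h3L : Def fun X _ => 3 * (sideX Φ X * sideX Φ X) := (Def.const 3).mul hL
  have hj : Def fun X v => v 0 - (sideX Φ X + 1) := (Def.var 0).sub (hN.add (Def.const 1))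
  have hq : Def fun X v => (v 0 - (sideX Φ X + 1)) / (3 * (sideX Φ X * sideX Φ X)) := hj.div h3L
  have hr : Def fun X v => (v 0 - (sideX Φ X + 1)) % (3 * (sideX Φ X * sideX Φ X)) := hj.mod h3L
  have hlen : Def fun X _ => sideX Φ X + 1 + (sideX Φ X * sideX Φ X) * (sideX Φ X * sideX Φ X) *
      (3 * (sideX Φ X * sideX Φ X)) :=
    (hN.add (Def.const 1)).add ((hL.mul hL).mul h3L)
  have hkeep : DefP fun X v => KeepBit (sideX Φ X) (edgeN Φ X) (v 0) :=
    (DefP.lt (Def.var 0) (hN.add (Def.const 1))).or
      (DefP.comp1 (F := fun X i => SlotOK (sideX Φ X) (edgeN Φ X) i) (def_slotOK Φ) hq)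
  have hout : DefP fun X v => OutBit (sideX Φ X) (v 0) :=
    (DefP.lt (Def.var 0) hN).or ((DefP.le (hN.add (Def.const 1)) (Def.var 0)).and
      (((DefP.lt hr hL).and (DefP.lt hr ((hq.div hL).add (Def.const 1)))).or
        ((DefP.le hL hr).and ((DefP.lt hr ((Def.const 2).mul hL)).and
          (DefP.lt (hr.sub hL) ((hq.mod hL).add (Def.const 1)))))))
  obtain ⟨eL, heL⟩ := hlen
  obtain ⟨eE, heE⟩ := hkeep
  obtain ⟨eB, heB⟩ := hout
  have key : ∀ X, genOut eL eE eB X = encode (sideX Φ X) (puzzle (sideX Φ X) (edgeN Φ X)) := by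
    intro X
    rw [← encode_puzzle (sideX_pos Φ X)]
    unfold genOut
    rw [heL]
    congr 1
    · funext i
      rw [heB]
      apply decide_eq_decide.2
      by_cases h : OutBit (sideX Φ X) i
      · simp [h]
      · simp [h]
    · congr 1
      funext i
      rw [heE]
      apply decide_eq_decide.2
      by_cases h : KeepBit (sideX Φ X) (edgeN Φ X) i
      · simp [h]
      · simp [h]
  refine ⟨fun x => genOut eL eE eB (inp1 x), ?_, fun x => ?_⟩
  · refine polyTime_gen (fun b : Bool => (false, b)) id id _ eL eE eB fun x => ?_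
    have : (fun i => proj (fun b : Bool => (false, b)) i (id x)) = inp1 x := by
      funext i; exact proj_inp1 x i
    rw [this]
    rfl
  · change L' x ↔ BoggleSolve (genOut eL eE eB (inp1 x))
    rw [hL' x, key, boggleSolve_puzzle (sideX_pos Φ _) (not_edgeN_self Φ _), placement_iff,
      ← hΦ (inp1 x)]
    rfl

/-- **BOGGLE-SOLVE is NP-complete.** -/
theorem result : NPComplete BoggleSolve := ⟨inNP_boggleSolve, npHard_boggleSolve⟩

end Pool.Agent.Results.MP_406c0a_lc.BoggleNPComplete
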